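import Pool.Agent.Q319.DR.Win
import Pool.Agent.Y927.GP.F
import Pool.Agent.H319R2.LeighBridge

/-!
# Generalised Collatz maps: all trajectories in expanding classes which start near the multiples of almost every real number rise

Let `T` be a generalised Collatz map and `C` a class of Leigh's chain with `Λ_C > 1` (the maps, the chain, the classes,
`Λ_C` and `S_C` are defined in `Pool.Agent.H319R2.LeighBridge`). According to the conjecture almost all trajectories in
`S_C` diverge. We show that ALL trajectories in `S_C` which start in windows around the multiples `k y` of almost every real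
number `y` (with few exceptional `k`), or around the numbers `α v_k` for almost every real number `α` (for all large `k`),
rise from `x` to at least `|x| ^ s`, for every `s < 1 + log Λ_C / log d`.

From Mathlib: `volume`: the Lebesgue measure; `∀ᵐ α : ℝ`: for almost all real `α`; `∀ᶠ k in atTop`: for all large `k`;
`^[n]`: iterates. The bound for the number of trajectories which do not rise is from the starting files
(`Pool.Agent.Y927.GP`), as well as the count of the elements of arbitrary sets of integers in intervals at multiples of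
real numbers (`Pool.Agent.H438R2.DL`).
-/

set_option autoImplicit false

namespace Pool.Agent.Results.MP_39d40e_nt.AscentAtRealMultiples

open Finset MeasureTheory Filter Polynomial Pool.Agent.H319R2.Leigh

/-- `x ∈ S_C` and all terms of the trajectory of `x` are smaller than `|x| ^ s` in absolute value. -/
def Low (d : ℕ) (m r : ℤ → ℤ) (C : Finset (ℤ × ℕ)) (s : ℝ) (x : ℤ) : Prop :=
  x ∈ S d C ∧ ∀ n : ℕ, |(((T d m r)^[n] x : ℤ) : ℝ)| < |(x : ℝ)| ^ s

open Classical in
/-- The number of the `k` with `1 ≤ k ≤ K` such that, for some `x ∈ S_C` whose absolute value is at a distance of at most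
`w` from `k y`, all terms of the trajectory of `x` are smaller than `|x| ^ s` in absolute value. -/
noncomputable def exceptions (d : ℕ) (m r : ℤ → ℤ) (C : Finset (ℤ × ℕ)) (K y w s : ℝ) : ℕ :=
  ((Icc 1 ⌊K⌋₊).filter (fun k : ℕ => ∃ x : ℤ, |(|(x : ℝ)|) - k * y| ≤ w ∧ Low d m r C s x)).card

/-- Let `T` be a generalised Collatz map modulo `d`, `C` a finite closed communicating class of its Leigh chain with
`Λ_C > 1` and `s < 1 + log Λ_C / log d`.
* Let `0 < θ < 1`. There is `c > 0` such that for all large `N` there is a set `E` of real numbers of measure at most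
  `N ^ (1 - θ - c)` with the following property. Let `y ∉ E` be a real number with
  `N ^ (1 - θ) ≤ y ≤ 2 N ^ (1 - θ)`. For all `k ≤ N ^ θ`, with at most `N ^ (θ - c)` exceptions, the trajectories of
  ALL `x ∈ S_C` with `||x| - k y| ≤ N ^ c` have a term of absolute value at least `|x| ^ s`.
* There is `c > 0` such that for all real numbers `v k ≥ 1` and `0 ≤ w k ≤ v k` for which `∑ w k (v k) ^ (-c)` converges
  and for almost every real number `α > 0`: for all large `k` the trajectories of ALL `x ∈ S_C`, `x ≠ 0`, with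
  `||x| - α v k| ≤ w k` have a term of absolute value at least `|x| ^ s`. (For example `v k = g ^ k`, `g > 1`, or
  `v k = k ^ a`, `a > 1 / c`, and `w k = v k ^ η` with a small `η > 0`.) -/
theorem result (d : ℕ) (m r b : ℤ → ℤ) (e : ℤ → ℕ) (D : Data d m r b e) (C : Finset (ℤ × ℕ))
    (ρ : ℤ × ℕ → ℝ) (hC : Class d m r e C ρ) (hL : 1 < Lam d m C ρ) (s : ℝ)
    (hs : s < 1 + Real.log (Lam d m C ρ) / Real.log d) :
    (∀ θ : ℝ, 0 < θ → θ < 1 → ∃ c : ℝ, 0 < c ∧ ∃ N₀ : ℕ, ∀ N : ℕ, N₀ ≤ N →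
      ∃ E : Set ℝ, MeasurableSet E ∧ volume E ≤ ENNReal.ofReal ((N : ℝ) ^ (1 - θ - c)) ∧
        ∀ y : ℝ, (N : ℝ) ^ (1 - θ) ≤ y → y ≤ 2 * (N : ℝ) ^ (1 - θ) → y ∉ E →
          (exceptions d m r C ((N : ℝ) ^ θ) y ((N : ℝ) ^ c) s : ℝ) ≤ (N : ℝ) ^ (θ - c)) ∧
    (∃ c : ℝ, 0 < c ∧ ∀ v w : ℕ → ℝ, (∀ k, 1 ≤ v k) → (∀ k, 0 ≤ w k ∧ w k ≤ v k) →
      Summable (fun k => w k * v k ^ (-c)) →
      ∀ᵐ α : ℝ, 0 < α → ∀ᶠ k : ℕ in atTop, ∀ x : ℤ, x ∈ S d C → x ≠ 0 → |(|(x : ℝ)|) - α * v k| ≤ w k →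
        ∃ n : ℕ, |(x : ℝ)| ^ s ≤ |(((T d m r)^[n] x : ℤ) : ℝ)|) := by
  classical
  have hd1 : (1 : ℝ) < d := by
    have := D.two_le
    exact_mod_cast (by omega : 1 < d)
  have hld : 0 < Real.log d := Real.log_pos hd1
  obtain ⟨τ, hτ⟩ : ∃ τ : ℝ, τ = Real.log (Lam d m C ρ) / Real.log d := ⟨_, rfl⟩
  have hlL : 0 < Real.log (Lam d m C ρ) := Real.log_pos hL
  have hτ0 : 0 < τ := by rw [hτ]; positivity
  rw [← hτ] at hs
  have hdd : (((gm D).d : ℕ) : ℝ) = d := rfl
  have hmu : Pool.Agent.Y927.GP.mu (gm D) C ρ = τ * Real.log (gm D).d := by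
    have h0 : Pool.Agent.Y927.GP.mu (gm D) C ρ = Real.log (Lam d m C ρ) := (log_Lam D hC).symm
    rw [h0, hdd, hτ, div_mul_cancel₀ _ hld.ne']
  obtain ⟨δ, K, hδ, hδ1, hK, h⟩ := Pool.Agent.Y927.GP.up_main (gm_fac D) (gm_cls D hC) (f := (X : ℤ[X]))
    natDegree_X.ge hτ0 hmu (ε := 1 + τ - s) (by linarith)
  have hcnt : ∀ X : ℝ, 1 ≤ X → ∀ F : Finset ℤ, (∀ x ∈ F, |(x : ℝ)| ≤ X ∧ Low d m r C s x) →
      (F.card : ℝ) ≤ K * X ^ (1 - δ) := by
    intro X' hX F hF
    refine h X' hX F fun x hx => ?_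
    obtain ⟨h1, hxS, hlow⟩ := hF x hx
    rw [eval_X, natDegree_X, gm_T]
    refine ⟨h1, hxS, fun k => ?_⟩
    have e1 : 1 + τ / ((1 : ℕ) : ℝ) - (1 + τ - s) = s := by
      push_cast
      ring
    rw [e1]
    exact hlow k
  constructor
  · intro θ hθ hθ1
    refine Pool.Agent.Q319.DR.win_mult θ hθ hθ1 δ hδ (fun _ x => Low d m r C s x) (K * 4 ^ (1 - δ)) 1
      (fun N hN F hF => ?_)
    have hN1 : (1 : ℝ) ≤ N := by exact_mod_cast hN
    refine (hcnt (4 * N) (by linarith) F hF).trans (le_of_eq ?_)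
    rw [Real.mul_rpow (by norm_num) (by linarith)]
    ring
  · refine ⟨δ, hδ, fun v w hv hw hsum => ?_⟩
    filter_upwards [Pool.Agent.Q319.DR.win_bc δ (Low d m r C s) K hcnt v w hv hw hsum] with α hα hα0
    filter_upwards [hα hα0] with k hk x hxS hx0 hx
    by_contra hcon
    push Not at hcon
    exact hk x hx0 hx ⟨hxS, hcon⟩

end Pool.Agent.Results.MP_39d40e_nt.AscentAtRealMultiples
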