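import Pool.Agent.Q319.DR.One
import Pool.Agent.Q319.DR.MultP1
import Pool.Agent.H319R2.LeighBridge

/-!
# Generalised Collatz maps: all trajectories which start near the multiples of almost every real number come down

Let `T` be a generalised Collatz map and `C` a class of Leigh's chain with `Λ_C < 1` (the maps, the chain, the classes,
`Λ_C` and `S_C` are defined in `Pool.Agent.H319R2.LeighBridge`). According to the conjecture all trajectories in `S_C`
cycle, so they come down to a bounded set. We show that ALL trajectories in `S_C` which start in windows around the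
multiples `k y` of almost every real number `y` (with few exceptional `k`), or around the numbers `α v_k` for almost
every real number `α` (for all large `k`), come down to a power of the logarithm, or to a small power.

From Mathlib: `volume`: the Lebesgue measure; `∀ᵐ α : ℝ`: for almost all real `α`; `∀ᶠ k in atTop`: for all large `k`;
`^[n]`: iterates. The bound for the number of trajectories which do not come down is from the starting files
(`Pool.Agent.H319R2`), as well as the count of the elements of arbitrary sets of integers in intervals at multiples of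
real numbers (`Pool.Agent.H438R2.DL`).
-/

set_option autoImplicit false

namespace Pool.Agent.Results.MP_39d40e_nt.DescentAtRealMultiples

open Finset MeasureTheory Filter Pool.Agent.H319R2.Leigh

/-- `x ∈ S_C` and the trajectory of `x` never enters `(-Y, Y)`. -/
def Stays (d : ℕ) (m r : ℤ → ℤ) (C : Finset (ℤ × ℕ)) (Y : ℝ) (x : ℤ) : Prop :=
  x ∈ S d C ∧ ∀ n : ℕ, Y ≤ |(((T d m r)^[n] x : ℤ) : ℝ)|

open Classical in
/-- The number of the `k` with `1 ≤ k ≤ K` such that, for some `x ∈ S_C` whose absolute value is at a distance of at most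
`w` from `k y`, the trajectory of `x` never enters `(-Y, Y)`. -/
noncomputable def exceptions (d : ℕ) (m r : ℤ → ℤ) (C : Finset (ℤ × ℕ)) (K y w Y : ℝ) : ℕ :=
  ((Icc 1 ⌊K⌋₊).filter (fun k : ℕ => ∃ x : ℤ, |(|(x : ℝ)|) - k * y| ≤ w ∧ Stays d m r C Y x)).card

variable {d : ℕ} {m r b : ℤ → ℤ} {e : ℤ → ℕ} {C : Finset (ℤ × ℕ)} {ρ : ℤ × ℕ → ℝ}

/-- the number of the trajectories which do not come down -/
lemma cnt (D : Data d m r b e) (hC : Class d m r e C ρ) (hL : Lam d m C ρ < 1) :
    ∃ A κ : ℝ, 0 ≤ A ∧ 0 < κ ∧ ∀ X Y : ℝ, 2 ≤ X → 1 ≤ Y → ∀ F : Finset ℕ,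
      (∀ n ∈ F, (n : ℝ) ≤ X ∧ ∃ x : ℤ, |(x : ℝ)| = n ∧ Stays d m r C Y x) →
      (F.card : ℝ) ≤ A * X * Real.log X ^ (2 * d + 4) * Y ^ (-κ) := by
  classical
  obtain ⟨hinv, η, hη0, hη1, hsm⟩ := small D hC hL
  obtain ⟨A, hA0, hA⟩ := (gm D).descent (S d C) hinv η hη0 hη1 hsm
  refine ⟨A, 1 - η, hA0.le, by linarith, ?_⟩
  intro X Y hX hY F hF
  have hex : ∀ n ∈ F, ∃ x : ℤ, |(x : ℝ)| = n ∧ Stays d m r C Y x := fun n hn => (hF n hn).2
  choose! f hf using hex
  have hinj : Set.InjOn f F := by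
    intro a ha a' ha' h
    have h1 := (hf a ha).1
    have h2 := (hf a' ha').1
    rw [h] at h1
    have h3 : (a : ℝ) = a' := by rw [← h1, ← h2]
    exact_mod_cast h3
  have h := hA X Y hX hY (F.image f) (fun x hx => by
    rw [mem_image] at hx
    obtain ⟨n, hn, rfl⟩ := hx
    refine ⟨(hf n hn).2.1, ?_, (hf n hn).2.2⟩
    rw [(hf n hn).1]
    exact (hF n hn).1)
  rw [card_image_of_injOn hinj] at h
  rw [neg_sub]
  exact h

/-- Let `T` be a generalised Collatz map modulo `d` and `C` a finite closed communicating class of its Leigh chain with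
`Λ_C < 1`.
* Let `0 < θ < 1`. There is `κ₀ > 0` such that for all `A`, `U` there is `B` such that for all large `N` there is a set
  `E` of real numbers of measure at most `N ^ (1 - θ - κ₀)` with the following property. Let `y` be a real number with
  `N ^ (1 - θ) ≤ y ≤ 2 N ^ (1 - θ)` which does not belong to `E`. For all `k ≤ N ^ θ`, with at most
  `N ^ θ / log ^ U N` exceptions, ALL `x ∈ S_C` with `||x| - k y| ≤ log ^ A N` have a trajectory which enters
  `(-log ^ B N, log ^ B N)`.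
* Let `0 < θ < 1` and `η > 0`. There is `c > 0` such that for all large `N` the same holds with the measure
  `N ^ (1 - θ - c)`, at most `N ^ (θ - c)` exceptions, the windows `||x| - k y| ≤ N ^ c` and the target
  `(-N ^ η, N ^ η)`.
* There is `κ > 0` such that for all real numbers `v k ≥ 2`, `0 ≤ w k ≤ v k` and `y k ≥ 1` for which
  `∑ w k (log (v k)) ^ (2 d + 4) (y k) ^ (-κ)` converges, and for almost every real number `α > 0`: for all large `k`
  ALL `x ∈ S_C` with `||x| - α v k| ≤ w k` have a trajectory which enters `(-y k, y k)`. (For example `v k = g ^ k`,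
  `g > 1`, `w k = k ^ A` and `y k = k ^ B` with `κ B > A + 2 d + 5`, or `w k = v k ^ c` and `y k = v k ^ η` with
  `c < κ η`.) -/
theorem result (d : ℕ) (m r b : ℤ → ℤ) (e : ℤ → ℕ) (D : Data d m r b e) (C : Finset (ℤ × ℕ))
    (ρ : ℤ × ℕ → ℝ) (hC : Class d m r e C ρ) (hL : Lam d m C ρ < 1) :
    (∀ θ : ℝ, 0 < θ → θ < 1 → ∃ κ₀ : ℝ, 0 < κ₀ ∧ ∀ A U : ℕ, ∃ B N₀ : ℕ, ∀ N : ℕ, N₀ ≤ N →
      ∃ E : Set ℝ, MeasurableSet E ∧ volume E ≤ ENNReal.ofReal ((N : ℝ) ^ (1 - θ - κ₀)) ∧
        ∀ y : ℝ, (N : ℝ) ^ (1 - θ) ≤ y → y ≤ 2 * (N : ℝ) ^ (1 - θ) → y ∉ E →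
          (exceptions d m r C ((N : ℝ) ^ θ) y (Real.log N ^ A) (Real.log N ^ B) : ℝ) ≤
            (N : ℝ) ^ θ / Real.log N ^ U) ∧
    (∀ θ η : ℝ, 0 < θ → θ < 1 → 0 < η → ∃ c : ℝ, 0 < c ∧ ∃ N₀ : ℕ, ∀ N : ℕ, N₀ ≤ N →
      ∃ E : Set ℝ, MeasurableSet E ∧ volume E ≤ ENNReal.ofReal ((N : ℝ) ^ (1 - θ - c)) ∧
        ∀ y : ℝ, (N : ℝ) ^ (1 - θ) ≤ y → y ≤ 2 * (N : ℝ) ^ (1 - θ) → y ∉ E →
          (exceptions d m r C ((N : ℝ) ^ θ) y ((N : ℝ) ^ c) ((N : ℝ) ^ η) : ℝ) ≤ (N : ℝ) ^ (θ - c)) ∧
    (∃ κ : ℝ, 0 < κ ∧ ∀ v w y : ℕ → ℝ, (∀ k, 2 ≤ v k) → (∀ k, 0 ≤ w k ∧ w k ≤ v k) → (∀ k, 1 ≤ y k) →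
      Summable (fun k => w k * Real.log (v k) ^ (2 * d + 4) * y k ^ (-κ)) →
      ∀ᵐ α : ℝ, 0 < α → ∀ᶠ k : ℕ in atTop, ∀ x : ℤ, x ∈ S d C → |(|(x : ℝ)|) - α * v k| ≤ w k →
        ∃ n : ℕ, |(((T d m r)^[n] x : ℤ) : ℝ)| < y k) := by
  classical
  obtain ⟨A₀, κ, hA₀, hκ, hcnt⟩ := cnt D hC hL
  refine ⟨fun θ hθ hθ1 => ?_, fun θ η hθ hθ1 hη => ?_, κ, hκ, fun v w y hv hw hy hsum => ?_⟩
  · obtain ⟨κ₀, hκ₀, h⟩ := Pool.Agent.Q319.DR.mult_one θ hθ hθ1
    refine ⟨κ₀, hκ₀, fun A U => ?_⟩
    obtain ⟨B, hB⟩ := exists_nat_ge (((U + A + 2 * d + 7 : ℕ) : ℝ) / κ)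
    rw [div_le_iff₀ hκ] at hB
    obtain ⟨N₁, h1⟩ := h A U
    obtain ⟨N₂, h2⟩ := (tendsto_natCast_atTop_atTop.eventually
      (Pool.Agent.Q319.DR.ev_log (A₀ * 4 * 2 ^ (2 * d + 4) + 1))).exists_forall_of_atTop
    refine ⟨B, N₁ + N₂ + 4, fun N hN => ?_⟩
    have hL1 := h2 N (by omega)
    have hN4 : (4 : ℝ) ≤ N := by exact_mod_cast (by omega : 4 ≤ N)
    have hN0 : (0 : ℝ) < N := by linarith
    have hA0' : 0 ≤ A₀ * 4 * 2 ^ (2 * d + 4) := by positivity
    have hL2 : 1 ≤ Real.log N := by linarith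
    have hL0 : 0 < Real.log N := by linarith
    have hlog4 : Real.log (4 * N) ≤ 2 * Real.log N := by
      rw [Real.log_mul (by norm_num) hN0.ne']
      have := Real.log_le_log (by norm_num) hN4
      linarith
    have hlog40 : 0 ≤ Real.log (4 * N) := Real.log_nonneg (by linarith)
    obtain ⟨E, hE1, hE2, hE3⟩ := h1 N (by omega)
      (fun n => ∃ x : ℤ, |(x : ℝ)| = n ∧ Stays d m r C (Real.log N ^ B) x) (fun F hF hFb => by
        have h3 := hcnt (4 * N) (Real.log N ^ B) (by linarith) (one_le_pow₀ hL2) F (fun n hn => by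
          refine ⟨?_, hFb n hn⟩
          have h4 := (mem_Icc.1 (hF hn)).2
          exact_mod_cast h4)
        refine h3.trans ?_
        have h5 : (Real.log N ^ B) ^ (-κ) ≤ 1 / Real.log N ^ (U + A + 2 * d + 7) := by
          rw [← Real.rpow_natCast (Real.log N) B, ← Real.rpow_mul hL0.le]
          calc Real.log N ^ ((B : ℝ) * -κ) ≤ Real.log N ^ (-(((U + A + 2 * d + 7 : ℕ) : ℝ))) := by
                apply Real.rpow_le_rpow_of_exponent_le hL2
                linarith
            _ = _ := by rw [Real.rpow_neg hL0.le, Real.rpow_natCast, one_div]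
        calc A₀ * (4 * N) * Real.log (4 * N) ^ (2 * d + 4) * (Real.log N ^ B) ^ (-κ)
            ≤ A₀ * (4 * N) * (2 * Real.log N) ^ (2 * d + 4) * (1 / Real.log N ^ (U + A + 2 * d + 7)) := by
              gcongr
          _ = (A₀ * 4 * 2 ^ (2 * d + 4)) * (N / Real.log N ^ (U + A + 3)) := by
              rw [mul_pow, show U + A + 2 * d + 7 = (U + A + 3) + (2 * d + 4) by ring,
                pow_add (Real.log N) (U + A + 3) (2 * d + 4)]
              field_simp
          _ ≤ Real.log N * (N / Real.log N ^ (U + A + 3)) := by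
              apply mul_le_mul_of_nonneg_right _ (by positivity)
              linarith
          _ = N / Real.log N ^ (U + A + 2) := by
              rw [show U + A + 3 = (U + A + 2) + 1 by ring, pow_succ]
              field_simp)
    refine ⟨E, hE1, hE2, fun y hy1 hy2 hyE => le_trans ?_ (hE3 y hy1 hy2 hyE)⟩
    unfold exceptions
    apply Nat.cast_le.2
    apply card_le_card
    intro k hk
    rw [mem_filter] at hk ⊢
    obtain ⟨hk1, x, hx1, hx2⟩ := hk
    refine ⟨hk1, x.natAbs, ?_, x, ?_, hx2⟩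
    · rw [Nat.cast_natAbs, Int.cast_abs]
      exact hx1
    · rw [Nat.cast_natAbs, Int.cast_abs]
  · obtain ⟨c, hc, h⟩ := Pool.Agent.Q319.DR.mult_oneP θ hθ hθ1 (η * κ / 2) (by positivity)
    refine ⟨c, hc, ?_⟩
    obtain ⟨N₁, h1⟩ := h (A₀ * 4)
    have hex : ∀ᶠ Y : ℝ in atTop, 4 ≤ Y ∧ 2 ^ (2 * d + 4) * Real.log Y ^ (2 * d + 4) ≤ Y ^ (η * κ / 2) := by
      filter_upwards [eventually_ge_atTop 4, Pool.Agent.Q319.DR.ev_pow (η * κ / 2) (by positivity) (2 * d + 4)
        (2 ^ (2 * d + 4))] with Y a b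
      exact ⟨a, b⟩
    obtain ⟨N₂, h2⟩ := (tendsto_natCast_atTop_atTop.eventually hex).exists_forall_of_atTop
    refine ⟨N₁ + N₂, fun N hN => ?_⟩
    obtain ⟨hN4, hN5⟩ := h2 N (by omega)
    have hN0 : (0 : ℝ) < N := by linarith
    have hL0 : 0 ≤ Real.log N := Real.log_nonneg (by linarith)
    have hlog4 : Real.log (4 * N) ≤ 2 * Real.log N := by
      rw [Real.log_mul (by norm_num) hN0.ne']
      have := Real.log_le_log (by norm_num) hN4
      linarith
    have hlog40 : 0 ≤ Real.log (4 * N) := Real.log_nonneg (by linarith)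
    obtain ⟨E, hE1, hE2, hE3⟩ := h1 N (by omega)
      (fun n => ∃ x : ℤ, |(x : ℝ)| = n ∧ Stays d m r C ((N : ℝ) ^ η) x) (fun F hF hFb => by
        have h3 := hcnt (4 * N) ((N : ℝ) ^ η) (by linarith) (Real.one_le_rpow (by linarith) hη.le) F (fun n hn => by
          refine ⟨?_, hFb n hn⟩
          have h4 := (mem_Icc.1 (hF hn)).2
          exact_mod_cast h4)
        refine h3.trans ?_
        calc A₀ * (4 * N) * Real.log (4 * N) ^ (2 * d + 4) * ((N : ℝ) ^ η) ^ (-κ)
            ≤ A₀ * (4 * N) * (2 * Real.log N) ^ (2 * d + 4) * ((N : ℝ) ^ η) ^ (-κ) := by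
              gcongr
          _ = A₀ * 4 * (N * (2 ^ (2 * d + 4) * Real.log N ^ (2 * d + 4)) * ((N : ℝ) ^ (η * -κ))) := by
              rw [mul_pow, ← Real.rpow_mul hN0.le]
              ring
          _ ≤ A₀ * 4 * (N * (N : ℝ) ^ (η * κ / 2) * ((N : ℝ) ^ (η * -κ))) := by
              gcongr
          _ = A₀ * 4 * (N : ℝ) ^ (1 - η * κ / 2) := by
              congr 1
              nth_rewrite 1 [← Real.rpow_one (N : ℝ)]
              rw [← Real.rpow_add hN0, ← Real.rpow_add hN0]
              congr 1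
              ring)
    refine ⟨E, hE1, hE2, fun y hy1 hy2 hyE => le_trans ?_ (hE3 y hy1 hy2 hyE)⟩
    unfold exceptions
    apply Nat.cast_le.2
    apply card_le_card
    intro k hk
    rw [mem_filter] at hk ⊢
    obtain ⟨hk1, x, hx1, hx2⟩ := hk
    refine ⟨hk1, x.natAbs, ?_, x, ?_, hx2⟩
    · rw [Nat.cast_natAbs, Int.cast_abs]
      exact hx1
    · rw [Nat.cast_natAbs, Int.cast_abs]
  · have hlog2 : 0 < Real.log 2 := Real.log_pos (by norm_num)
    have h := Pool.Agent.Q319.DR.bc_all (fun k n => ∃ x : ℤ, |(x : ℝ)| = n ∧ Stays d m r C (y k) x) v w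
      (fun k => by have := hv k; linarith) hw (fun D' => by
        obtain ⟨cD, hcD⟩ : ∃ cD : ℝ, cD = 1 + Real.log (D' + 1) / Real.log 2 := ⟨_, rfl⟩
        have hlD : 0 ≤ Real.log ((D' : ℝ) + 1) := Real.log_nonneg (by
          have : (0 : ℝ) ≤ D' := Nat.cast_nonneg _
          linarith)
        have hcD0 : 0 ≤ cD := by rw [hcD]; positivity
        have hnn : ∀ k, 0 ≤ w k * Real.log (v k) ^ (2 * d + 4) * y k ^ (-κ) := by
          intro k
          have h1 := hv k
          have h2 := (hw k).1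
          have h3 := hy k
          have h4 : 0 ≤ Real.log (v k) := Real.log_nonneg (by linarith)
          have h5 : 0 ≤ y k ^ (-κ) := Real.rpow_nonneg (by linarith) _
          positivity
        refine ⟨fun k => (A₀ * (D' + 1) * 2 * cD ^ (2 * d + 4)) * (w k * Real.log (v k) ^ (2 * d + 4) * y k ^ (-κ)),
          hsum.mul_left _, fun k => mul_nonneg (by positivity) (hnn k), fun k F hF hFb => ?_⟩
        have h1 := hv k
        have h2 := (hw k).1
        have h3 := hy k
        have h4 : 0 < v k := by linarith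
        have h5 : 0 ≤ y k ^ (-κ) := Real.rpow_nonneg (by linarith) _
        have hD1 : (1 : ℝ) ≤ (D' : ℝ) + 1 := by
          have : (0 : ℝ) ≤ D' := Nat.cast_nonneg _
          linarith
        have h6 : 2 ≤ ((D' : ℝ) + 1) * v k := by nlinarith
        have h7 := hcnt (((D' : ℝ) + 1) * v k) (y k) h6 h3 F (fun n hn => by
          refine ⟨?_, hFb n hn⟩
          have h8 := (mem_Icc.1 (hF hn)).2
          exact (Nat.le_floor_iff (by positivity)).1 h8)
        have h8 : Real.log (((D' : ℝ) + 1) * v k) ≤ cD * Real.log (v k) := by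
          rw [Real.log_mul (by positivity) h4.ne', hcD, add_mul, one_mul, add_comm]
          have h9 : Real.log 2 ≤ Real.log (v k) := Real.log_le_log (by norm_num) h1
          have h10 : Real.log ((D' : ℝ) + 1) ≤ Real.log ((D' : ℝ) + 1) / Real.log 2 * Real.log (v k) := by
            rw [div_mul_eq_mul_div, le_div_iff₀ hlog2]
            gcongr
          linarith
        have h9 : 0 ≤ Real.log (((D' : ℝ) + 1) * v k) := Real.log_nonneg (by linarith)
        calc (F.card : ℝ) * (2 * w k / v k)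
            ≤ (A₀ * (((D' : ℝ) + 1) * v k) * (cD * Real.log (v k)) ^ (2 * d + 4) * y k ^ (-κ)) * (2 * w k / v k) := by
              apply mul_le_mul_of_nonneg_right _ (by positivity)
              refine h7.trans ?_
              gcongr
          _ = _ := by
              rw [mul_pow]
              field_simp)
    filter_upwards [h] with α hα hα0
    filter_upwards [hα hα0] with k hk x hxS hx
    by_contra hcon
    push Not at hcon
    have hx0 : x ≠ 0 := by
      intro h0
      have h1 := hcon 0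
      rw [Function.iterate_zero, id, h0] at h1
      have h2 := hy k
      simp at h1
      linarith
    refine hk x.natAbs (Int.natAbs_pos.2 hx0) ?_ ⟨x, ?_, hxS, hcon⟩
    · rw [Nat.cast_natAbs, Int.cast_abs]
      exact hx
    · rw [Nat.cast_natAbs, Int.cast_abs]

end Pool.Agent.Results.MP_39d40e_nt.DescentAtRealMultiples
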