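import Pool.Agent.Results.MP_39d40e_nt.PiatetskiShapiroTerms
import Pool.Agent.Q179.PH.Disc

/-!
# Generalised Collatz maps of coprime type and polynomials modulo one

Let `T` be a generalised Collatz map of coprime type with `∏ |m_i / d| < 1`. A function `F` on the integers with
`|F| ≤ 1` is synchronous if it has the same value at two integers whose trajectories meet after the same number of
steps; for example the indicator functions of all invariant sets (the trajectories that diverge, that end in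
a given cycle, unions of classes of trajectories that meet).

All synchronous functions are asymptotically orthogonal, uniformly, to every bounded sequence the correlations
of which vanish in arithmetic progressions. So they satisfy a Weyl inequality for all real polynomials of degree at
least two, the values of a polynomial with irrational leading coefficient are equidistributed modulo one along the
elements of an invariant set, uniformly in the set, and the divergent trajectories have density zero if and only if this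
is so among the `n` for which the fractional part of `P(n)` is in a given interval.

Method. The starting files `Y965/GP`: `k` steps of `T` map most of the `n ≤ N` to at most `σ^k N` pairs of a value and a
multiplier, and the pairs `n`, `n + h` with the same image form unions of residue classes modulo `d^k`. Cauchy-Schwarz
gives a dispersion inequality with the correlations of the given sequence.
-/

set_option autoImplicit false

namespace Pool.Agent.Results.MP_39d40e_nt.PolynomialPhases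

open Finset Filter Topology Polynomial

/-- The generalised Collatz map `T(x) = (m_i x - r_i) / d` for `x ≡ i mod d`, `0 ≤ i < d`. -/
def T (d : ℕ) (m r : ℕ → ℤ) (x : ℤ) : ℤ := (m (x % d).toNat * x - r (x % d).toNat) / d

/-- The data of a map of coprime type (`gcd(m_i, d) = 1`) with `Λ < 1`, that is `∏ |m_i / d| < 1`, and with
some `m_i` different from `1` and `-1`. -/
def Coprime (d : ℕ) (m r : ℕ → ℤ) : Prop :=
  2 ≤ d ∧ (∀ i < d, IsCoprime (m i) (d : ℤ)) ∧ (∀ i < d, r i ≡ i * m i [ZMOD d]) ∧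
    ∏ i ∈ range d, |(m i : ℝ) / d| < 1 ∧ ∃ i < d, |m i| ≠ 1

/-- `|F| ≤ 1`, and `F` takes the same value at `x` and `y` whenever the trajectories of `x` and `y` meet after `k` steps,
where `d ^ (8 k) < |x|, |y|`: `T^k x = T^k y`. For example the characteristic functions of all unions of classes of
trajectories that meet. -/
def Synchronous (d : ℕ) (m r : ℕ → ℤ) (F : ℤ → ℝ) : Prop :=
  (∀ x, |F x| ≤ 1) ∧ ∀ (k : ℕ) (x y : ℤ), (d : ℤ) ^ (8 * k) < |x| → (d : ℤ) ^ (8 * k) < |y| →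
    (T d m r)^[k] x = (T d m r)^[k] y → F x = F y

/-- `S` is invariant: `x ∈ S` if and only if `T x ∈ S` (unions of classes of trajectories that
meet). -/
def Invariant (d : ℕ) (m r : ℕ → ℤ) (S : Set ℤ) : Prop := ∀ x : ℤ, x ∈ S ↔ T d m r x ∈ S

/-- The integers with divergent trajectories. -/
def Divergent (d : ℕ) (m r : ℕ → ℤ) : Set ℤ := {x | Tendsto (fun k => |(T d m r)^[k] x|) atTop atTop}

/-- `S` has natural density `δ` on the side `σ` (`σ = 1`: positive integers, `σ = -1`: negative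
integers): `#{x ∈ S : 1 ≤ σ x ≤ N} / N → δ`. -/
def HasDensity (S : Set ℤ) (σ : ℤ) (δ : ℝ) : Prop :=
  Tendsto (fun N : ℕ => (Set.ncard {x : ℤ | x ∈ S ∧ 1 ≤ σ * x ∧ σ * x ≤ N} : ℝ) / N) atTop (𝓝 δ)

/-- `e^(2 π i t)` -/
noncomputable def e (t : ℝ) : ℂ := Complex.exp (2 * Real.pi * t * Complex.I)

/-- The correlations of the sequence `z` in arithmetic progressions vanish. -/
def NoCorrelations (z : ℕ → ℂ) : Prop := ∀ q a h : ℕ, 1 ≤ q → 1 ≤ h →
  Tendsto (fun J : ℕ => (∑ j ∈ range J, z (a + q * j) * (starRingEnd ℂ) (z (a + q * j + h))) / J) atTop (𝓝 0)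

/-- The number of the `n ≤ N` such that `σ n ∈ S` and the fractional part of `P(n)` is in `[u, v)`. -/
noncomputable def count (S : Set ℤ) (σ : ℤ) (P : ℝ[X]) (u v : ℝ) (N : ℕ) : ℕ :=
  {n : ℕ | 1 ≤ n ∧ n ≤ N ∧ σ * n ∈ S ∧ u ≤ Int.fract (P.eval (n : ℝ)) ∧ Int.fract (P.eval (n : ℝ)) < v}.ncard

/-! ### proofs -/

open Pool.Agent.Q179.PH
open Pool.Agent.Y965.GP (ind DSs InvT Av unif_nat DSs_range)

theorem smallCorr_of {z : ℕ → ℂ} (hz : NoCorrelations z) (Q H0 : ℕ) (hQ : 1 ≤ Q) {η : ℝ} (hη : 0 < η) :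
    ∃ C : ℝ, 0 ≤ C ∧ ∀ N : ℕ, SmallCorr Q H0 N (η * N + C) z := by
  -- one residue class and one shift
  have h1 : ∀ a h : ℕ, 1 ≤ h → ∃ C : ℝ, 0 ≤ C ∧ ∀ J : ℕ,
      ‖∑ j ∈ range J, z (a + Q * j) * (starRingEnd ℂ) (z (a + Q * j + h))‖ ≤ η / 2 * J + C := by
    intro a h hh
    have h2 := hz Q a h hQ hh
    rw [Metric.tendsto_atTop] at h2
    obtain ⟨J0, hJ0⟩ := h2 (η / 2) (by positivity)
    refine ⟨∑ J ∈ range (J0 + 1), ‖∑ j ∈ range J, z (a + Q * j) * (starRingEnd ℂ) (z (a + Q * j + h))‖,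
      sum_nonneg fun _ _ => norm_nonneg _, fun J => ?_⟩
    rcases Nat.lt_or_ge J (J0 + 1) with hJ | hJ
    · have h3 := single_le_sum (f := fun J => ‖∑ j ∈ range J, z (a + Q * j) * (starRingEnd ℂ) (z (a + Q * j + h))‖)
        (fun _ _ => norm_nonneg _) (mem_range.2 hJ)
      have h4 : 0 ≤ η / 2 * (J : ℝ) := by positivity
      linarith
    · have h3 := hJ0 J (by omega)
      have hJp : (0 : ℝ) < J := by exact_mod_cast (by omega : 0 < J)
      rw [dist_zero_right, norm_div, Complex.norm_natCast, div_lt_iff₀ hJp] at h3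
      have h4 : 0 ≤ ∑ J ∈ range (J0 + 1), ‖∑ j ∈ range J, z (a + Q * j) * (starRingEnd ℂ) (z (a + Q * j + h))‖ :=
        sum_nonneg fun _ _ => norm_nonneg _
      linarith
  have h2 : ∀ a h : ℕ, ∃ C : ℝ, 0 ≤ C ∧ (1 ≤ h → ∀ J : ℕ,
      ‖∑ j ∈ range J, z (a + Q * j) * (starRingEnd ℂ) (z (a + Q * j + h))‖ ≤ η / 2 * J + C) := by
    intro a h
    by_cases hh : 1 ≤ h
    · obtain ⟨C, hC, h3⟩ := h1 a h hh
      exact ⟨C, hC, fun _ => h3⟩
    · exact ⟨0, le_rfl, fun h3 => absurd h3 hh⟩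
  choose Cf hCf0 hCf using h2
  set C : ℝ := ∑ a ∈ range Q, ∑ h ∈ range (H0 + 1), Cf a h with hC
  have hC0 : 0 ≤ C := sum_nonneg fun a _ => sum_nonneg fun h _ => hCf0 a h
  refine ⟨η + 2 * C, by positivity, fun N h hh hhH a J hJ => ?_⟩
  set a0 := a % Q with ha0
  set u := a / Q with hu
  have hau : a = a0 + Q * u := (Nat.mod_add_div a Q).symm
  have ha0Q : a0 < Q := Nat.mod_lt _ hQ
  have hCle : Cf a0 h ≤ C := by
    refine le_trans ?_ (single_le_sum (f := fun a => ∑ h ∈ range (H0 + 1), Cf a h)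
      (fun a _ => sum_nonneg fun h _ => hCf0 a h) (mem_range.2 ha0Q))
    exact single_le_sum (f := fun h => Cf a0 h) (fun h _ => hCf0 a0 h) (mem_range.2 (by omega))
  rcases Nat.eq_zero_or_pos J with h0 | h0
  · subst h0
    rw [range_zero, sum_empty, norm_zero]
    positivity
  have hsplit : ∑ j ∈ range J, z (a + Q * j) * (starRingEnd ℂ) (z (a + Q * j + h)) =
      ∑ j ∈ range (u + J), z (a0 + Q * j) * (starRingEnd ℂ) (z (a0 + Q * j + h)) -
      ∑ j ∈ range u, z (a0 + Q * j) * (starRingEnd ℂ) (z (a0 + Q * j + h)) := by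
    rw [sum_range_add, add_sub_cancel_left]
    apply sum_congr rfl
    intro j _
    have e1 : a0 + Q * (u + j) = a + Q * j := by rw [Nat.mul_add, ← Nat.add_assoc, ← hau]
    rw [e1]
  rw [hsplit]
  refine (norm_sub_le _ _).trans ?_
  have h3 := hCf a0 h hh (u + J)
  have h4 := hCf a0 h hh u
  have h5 : u + J ≤ N + 1 := by
    have h6 := hJ (J - 1) (by omega)
    have h7 : u + (J - 1) ≤ Q * u + Q * (J - 1) := by
      have := Nat.le_mul_of_pos_left (u + (J - 1)) hQ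
      rw [Nat.mul_add] at this
      exact this
    omega
  have h6 : ((u + J : ℕ) : ℝ) ≤ N + 1 := by exact_mod_cast h5
  have h7 : (u : ℝ) ≤ N + 1 := by
    have : (u : ℝ) ≤ ((u + J : ℕ) : ℝ) := by exact_mod_cast Nat.le_add_right u J
    linarith
  nlinarith

theorem inv_iter {d : ℕ} {m r : ℕ → ℤ} {S : Set ℤ} (hS : Invariant d m r S) (k : ℕ) (x : ℤ) :
    x ∈ S ↔ (T d m r)^[k] x ∈ S := by
  induction k generalizing x with
  | zero => rfl
  | succ k ih => rw [Function.iterate_succ_apply, ← ih, hS x]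

theorem sync_ind {d : ℕ} {m r : ℕ → ℤ} {S : Set ℤ} (hS : Invariant d m r S) : Syn d m r (ind S) := by
  refine ⟨Pool.Agent.Y965.GP.ind_abs S, fun k x y _ _ h => ?_⟩
  apply Pool.Agent.Y965.GP.ind_congr
  rw [inv_iter hS k x, inv_iter hS k y]
  have h' : (T d m r)^[k] x = (T d m r)^[k] y := h
  rw [h']

open Classical in
theorem count_eq (S : Set ℤ) (σ : ℤ) (P : ℝ[X]) (u v : ℝ) (N : ℕ) : (count S σ P u v N : ℝ) =
    ∑ n ∈ (Icc 1 N).filter (fun n : ℕ => u ≤ Int.fract (P.eval (n : ℝ)) ∧ Int.fract (P.eval (n : ℝ)) < v), ind S (σ * (n : ℤ)) := by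
  unfold ind count
  rw [Finset.sum_boole]
  have e1 : {n : ℕ | 1 ≤ n ∧ n ≤ N ∧ σ * n ∈ S ∧ u ≤ Int.fract (P.eval (n : ℝ)) ∧ Int.fract (P.eval (n : ℝ)) < v} =
      (((Icc 1 N).filter (fun n : ℕ => u ≤ Int.fract (P.eval (n : ℝ)) ∧ Int.fract (P.eval (n : ℝ)) < v)).filter
        (fun n : ℕ => σ * (n : ℤ) ∈ S) : Finset ℕ) := by
    ext n
    simp only [Set.mem_ofPred_eq, coe_filter, mem_filter, mem_Icc]
    tauto
  rw [e1, Set.ncard_coe_finset]

theorem divergent_inv (d : ℕ) (m r : ℕ → ℤ) : Invariant d m r (Divergent d m r) := by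
  intro x
  have h1 : (fun k => |(T d m r)^[k] (T d m r x)|) = fun k => (fun k => |(T d m r)^[k] x|) (k + 1) := by
    funext k
    simp only [Function.iterate_succ_apply]
  unfold Divergent
  rw [Set.mem_ofPred_eq, Set.mem_ofPred_eq, h1]
  exact (tendsto_add_atTop_iff_nat 1).symm

/-- uniform natural densities -/
theorem unif (d : ℕ) (m r : ℕ → ℤ) (h : Coprime d m r) (hne : ∃ i < d, ∃ j < d, |m i| ≠ |m j|) {σ : ℤ}
    (hσ : σ = 1 ∨ σ = -1) : (∀ S : Set ℤ, Invariant d m r S → ∃ δ : ℝ, HasDensity S σ δ) ∧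
    ∀ ε : ℝ, 0 < ε → ∃ N0 : ℕ, ∀ N : ℕ, N0 ≤ N → ∀ S : Set ℤ, Invariant d m r S → ∀ δ : ℝ, HasDensity S σ δ →
      |(∑ x ∈ Icc 1 N, ind S (σ * (x : ℤ))) / N - δ| ≤ ε := by
  have hA := PiatetskiShapiroTerms.adm_of h
  obtain ⟨hd, hm, hr, hL, -⟩ := h
  obtain ⟨r1, -, -⟩ := NaturalDensities.result d hd m r hm hr hL hne
  have hdens : ∀ S : Set ℤ, InvT (T d m r) S → ∃ δ : ℝ, DSs σ S δ := by
    intro S hS
    obtain ⟨p, q, hp, hq, -⟩ := r1 S hS
    rcases hσ with rfl | rfl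
    · exact ⟨p, (PiatetskiShapiroTerms.DSs_iff (Or.inl rfl) S p).2 hp⟩
    · exact ⟨q, (PiatetskiShapiroTerms.DSs_iff (Or.inr rfl) S q).2 hq⟩
  have hav : ∀ ε : ℝ, 0 < ε → ∃ y : ℕ, ∀ N : ℕ, 1 ≤ N →
      ∑ x ∈ Icc 1 N, ind (Av (T d m r) y) (σ * (x : ℤ)) ≤ ε * N := by
    intro ε hε
    obtain ⟨C, hC, hmn⟩ := Pool.Agent.H319R3.GC.main hA 1
    obtain ⟨y, hy⟩ := ((Real.tendsto_log_atTop.comp tendsto_natCast_atTop_atTop).eventually
      (eventually_ge_atTop (C / ε))).exists_forall_of_atTop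
    refine ⟨max y 2, fun N hN => ?_⟩
    have hNR : (1 : ℝ) ≤ N := by exact_mod_cast hN
    have hy2 : (2 : ℝ) ≤ ((max y 2 : ℕ) : ℝ) := by exact_mod_cast le_max_right y 2
    have hl : C / ε ≤ Real.log ((max y 2 : ℕ) : ℝ) := hy _ (le_max_left _ _)
    have hl0 : 0 < Real.log ((max y 2 : ℕ) : ℝ) := Real.log_pos (by linarith)
    refine (Pool.Agent.Y965.GP.sum_ind_le hσ _ N).trans ((hmn N _ hNR hy2).trans ?_)
    rw [pow_one, div_le_iff₀ hl0]
    rw [div_le_iff₀ hε] at hl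
    calc C * N ≤ Real.log ((max y 2 : ℕ) : ℝ) * ε * N := mul_le_mul_of_nonneg_right hl (by linarith)
      _ = ε * N * Real.log ((max y 2 : ℕ) : ℝ) := by ring
  refine ⟨fun S hS => ?_, fun ε hε => ?_⟩
  · obtain ⟨δ, hδ⟩ := hdens S hS
    exact ⟨δ, (PiatetskiShapiroTerms.DSs_iff hσ S δ).1 hδ⟩
  · obtain ⟨N0, h1⟩ := unif_nat hdens hav hε
    exact ⟨N0, fun N hN S hS δ hδ => h1 N hN S hS δ ((PiatetskiShapiroTerms.DSs_iff hσ S δ).2 hδ)⟩

open Classical in
/-- GENERALISED COLLATZ MAPS AND POLYNOMIALS MODULO ONE. Let `T` be a generalised Collatz map of coprime type with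
`∏ |m_i / d| < 1` and some `m_i ≠ ± 1`. Both signs `σ` are treated.
(1) For every sequence `z` in the unit disc whose correlations in arithmetic progressions vanish the sum of
`F(σ n) z(n)` over `n ≤ N` is at most `ε N`, for `N ≥ N₀`, uniformly for all synchronous functions `F`.
(2) WEYL'S INEQUALITY. For `k ≥ 2` and `ε > 0` there is `M` such that for every `η > 0` there is `N₀` such that for
`N ≥ N₀` the sum of `F(σ n) e(P(n))` over `n ≤ N` is at most `ε N`, for ALL synchronous `F` and ALL real polynomials `P` of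
degree at most `k` such that the multiples `l P_k`, `l = 1, ..., M`, of the coefficient `P_k` of degree `k` have distance
at least `η` from all integers.
(3) Let `k ≥ 2` and `α` be irrational. For `ε > 0` and large `N`, for all polynomials `P` of degree `k` with leading
coefficient `α`, all `0 ≤ u ≤ v ≤ 1` and all synchronous `F` the sum of `F(σ n)` over the `n ≤ N` with fractional part
of `P(n)` in `[u, v)` is `v - u` times the sum over all `n ≤ N`, up to `ε N`; and if not all `|m_i|` are equal, then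
ALL invariant sets `S` have a density `δ` on the side `σ`, and `(v - u) δ N` elements `σ n`, `n ≤ N`, for
which the fractional part of `P(n)` is in `[u, v)`, up to `ε N`.
(4) Let moreover `0 ≤ u < v ≤ 1` be fixed and not all `|m_i|` be equal. The set of the integers of sign `σ` with
divergent trajectories has density zero if (and only if) for every `ε > 0` there are arbitrarily large `N` and
polynomials `P` of degree `k` with leading coefficient `α` such that at most `ε N` of the `n ≤ N` with fractional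
part of `P(n)` in `[u, v)` are such that the trajectory of `σ n` is divergent. -/
theorem result (d : ℕ) (m r : ℕ → ℤ) (h : Coprime d m r) :
    (∀ z : ℕ → ℂ, (∀ n, ‖z n‖ ≤ 1) → NoCorrelations z → ∀ ε : ℝ, 0 < ε → ∃ N₀ : ℕ, ∀ N : ℕ, N₀ ≤ N →
      ∀ σ : ℤ, (σ = 1 ∨ σ = -1) → ∀ F : ℤ → ℝ, Synchronous d m r F →
        ‖∑ n ∈ Icc 1 N, (F (σ * (n : ℤ)) : ℂ) * z n‖ ≤ ε * N) ∧
    (∀ k : ℕ, 2 ≤ k → ∀ ε : ℝ, 0 < ε → ∃ M : ℕ, 1 ≤ M ∧ ∀ η : ℝ, 0 < η → ∃ N₀ : ℕ, ∀ N : ℕ, N₀ ≤ N →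
      ∀ P : ℝ[X], P.natDegree ≤ k → (∀ l ∈ Icc 1 M, ∀ a : ℤ, η ≤ |(l : ℝ) * P.coeff k - a|) →
      ∀ σ : ℤ, (σ = 1 ∨ σ = -1) → ∀ F : ℤ → ℝ, Synchronous d m r F →
        ‖∑ n ∈ Icc 1 N, (F (σ * (n : ℤ)) : ℂ) * e (P.eval (n : ℝ))‖ ≤ ε * N) ∧
    ∀ k : ℕ, 2 ≤ k → ∀ α : ℝ, Irrational α →
      (∀ ε : ℝ, 0 < ε → ∃ N₀ : ℕ, ∀ N : ℕ, N₀ ≤ N → ∀ P : ℝ[X], P.natDegree ≤ k → P.coeff k = α →
        ∀ u v : ℝ, 0 ≤ u → u ≤ v → v ≤ 1 → ∀ σ : ℤ, (σ = 1 ∨ σ = -1) →
        (∀ F : ℤ → ℝ, Synchronous d m r F →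
          |∑ n ∈ (Icc 1 N).filter (fun n : ℕ => u ≤ Int.fract (P.eval (n : ℝ)) ∧ Int.fract (P.eval (n : ℝ)) < v),
            F (σ * (n : ℤ)) - (v - u) * ∑ n ∈ Icc 1 N, F (σ * (n : ℤ))| ≤ ε * N) ∧
        ((∃ i < d, ∃ j < d, |m i| ≠ |m j|) → ∀ S : Set ℤ, Invariant d m r S → ∃ δ : ℝ, HasDensity S σ δ ∧
          |(count S σ P u v N : ℝ) - (v - u) * δ * N| ≤ ε * N)) ∧
      ((∃ i < d, ∃ j < d, |m i| ≠ |m j|) → ∀ u v : ℝ, 0 ≤ u → u < v → v ≤ 1 → ∀ σ : ℤ, (σ = 1 ∨ σ = -1) →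
        (HasDensity (Divergent d m r) σ 0 ↔ ∀ ε : ℝ, 0 < ε → ∀ M : ℕ, ∃ N : ℕ, M ≤ N ∧ ∃ P : ℝ[X],
          P.natDegree ≤ k ∧ P.coeff k = α ∧ (count (Divergent d m r) σ P u v N : ℝ) ≤ ε * N)) := by
  have hA := PiatetskiShapiroTerms.adm_of h
  have hcount : ∀ k : ℕ, 2 ≤ k → ∀ α : ℝ, Irrational α → (∃ i < d, ∃ j < d, |m i| ≠ |m j|) → ∀ σ : ℤ,
      (σ = 1 ∨ σ = -1) → ∀ ε : ℝ, 0 < ε → ∃ N₀ : ℕ, ∀ N : ℕ, N₀ ≤ N → ∀ P : ℝ[X], P.natDegree ≤ k → P.coeff k = α →
      ∀ u v : ℝ, 0 ≤ u → u ≤ v → v ≤ 1 → ∀ S : Set ℤ, Invariant d m r S → ∀ δ : ℝ, HasDensity S σ δ →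
        |(count S σ P u v N : ℝ) - (v - u) * δ * N| ≤ ε * N := by
    intro k hk α hα hne σ hσ ε hε
    obtain ⟨N1, h1⟩ := disc hA hk hα (show 0 < ε / 2 by positivity)
    obtain ⟨N2, h2⟩ := (unif d m r h hne hσ).2 (ε / 2) (by positivity)
    refine ⟨N1 + N2 + 1, fun N hN P hP hPc u v hu huv hv S hS δ hδ => ?_⟩
    have h3 := h1 N (by omega) σ hσ P hP hPc (ind S) (sync_ind hS) u v hu huv hv
    have h4 := h2 N (by omega) S hS δ hδ
    have hNp : (0 : ℝ) < N := by exact_mod_cast (by omega : 0 < N)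
    rw [← count_eq] at h3
    have h5 : |∑ x ∈ Icc 1 N, ind S (σ * (x : ℤ)) - δ * N| ≤ ε / 2 * N := by
      have e1 : ∑ x ∈ Icc 1 N, ind S (σ * (x : ℤ)) - δ * N = ((∑ x ∈ Icc 1 N, ind S (σ * (x : ℤ))) / N - δ) * N := by
        field_simp
      rw [e1, abs_mul, abs_of_pos hNp]
      exact mul_le_mul_of_nonneg_right h4 hNp.le
    have h6 : |(v - u) * (∑ x ∈ Icc 1 N, ind S (σ * (x : ℤ)) - δ * N)| ≤ ε / 2 * N := by
      rw [abs_mul, abs_of_nonneg (by linarith : 0 ≤ v - u)]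
      calc (v - u) * |∑ x ∈ Icc 1 N, ind S (σ * (x : ℤ)) - δ * N| ≤ 1 * (ε / 2 * N) :=
            mul_le_mul (by linarith) h5 (abs_nonneg _) zero_le_one
        _ = _ := one_mul _
    have e2 : (count S σ P u v N : ℝ) - (v - u) * δ * N =
        ((count S σ P u v N : ℝ) - (v - u) * ∑ n ∈ Icc 1 N, ind S (σ * (n : ℤ))) +
        (v - u) * (∑ x ∈ Icc 1 N, ind S (σ * (x : ℤ)) - δ * N) := by ring
    rw [e2]
    refine (abs_add_le _ _).trans ?_
    linarith
  refine ⟨fun z hz1 hz ε hε => ?_, fun k hk ε hε => ?_, fun k hk α hα => ⟨fun ε hε => ?_, fun hne u v hu huv hv σ hσ => ?_⟩⟩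
  · obtain ⟨Q, H0, η, hQ, hη, H⟩ := orthQ hA hε
    obtain ⟨C, hC, h1⟩ := smallCorr_of hz Q H0 hQ hη
    obtain ⟨N0, h2⟩ := H C hC
    exact ⟨N0, fun N hN σ hσ F hF => h2 N hN σ hσ z hz1 (h1 N) F hF⟩
  · obtain ⟨M, hM, H⟩ := weylSyn hA hk hε
    refine ⟨M, hM, fun η hη => ?_⟩
    obtain ⟨N0, h1⟩ := H η hη
    exact ⟨N0, fun N hN P hP hPc σ hσ F hF => h1 N hN σ hσ P hP (fun l hl => hPc l hl _) F hF⟩
  · obtain ⟨N1, h1⟩ := disc hA hk hα hε
    by_cases hne : ∃ i < d, ∃ j < d, |m i| ≠ |m j|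
    · obtain ⟨N2, h2⟩ := hcount k hk α hα hne 1 (Or.inl rfl) ε hε
      obtain ⟨N3, h3⟩ := hcount k hk α hα hne (-1) (Or.inr rfl) ε hε
      refine ⟨N1 + N2 + N3, fun N hN P hP hPc u v hu huv hv σ hσ => ⟨fun F hF => ?_, fun _ S hS => ?_⟩⟩
      · exact h1 N (by omega) σ hσ P hP hPc F hF u v hu huv hv
      · obtain ⟨δ, hδ⟩ := (unif d m r h hne hσ).1 S hS
        refine ⟨δ, hδ, ?_⟩
        rcases hσ with rfl | rfl
        · exact h2 N (by omega) P hP hPc u v hu huv hv S hS δ hδ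
        · exact h3 N (by omega) P hP hPc u v hu huv hv S hS δ hδ
    · exact ⟨N1, fun N hN P hP hPc u v hu huv hv σ hσ =>
        ⟨fun F hF => h1 N hN σ hσ P hP hPc F hF u v hu huv hv, fun h2 => absurd h2 hne⟩⟩
  · constructor
    · intro hD ε hε M
      have h1 : ∀ᶠ N : ℕ in atTop, (Set.ncard {x : ℤ | x ∈ Divergent d m r ∧ 1 ≤ σ * x ∧ σ * x ≤ N} : ℝ) / N < ε :=
        (tendsto_order.1 hD).2 ε hε
      obtain ⟨N, h2, h3⟩ := (h1.and (eventually_ge_atTop (M + 1))).exists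
      have hNp : (0 : ℝ) < N := by exact_mod_cast (by omega : 0 < N)
      refine ⟨N, by omega, Polynomial.C α * X ^ k, natDegree_C_mul_X_pow_le _ _, by simp, ?_⟩
      rw [div_lt_iff₀ hNp, PiatetskiShapiroTerms.ncard_eq hσ] at h2
      rw [count_eq]
      refine le_trans ?_ h2.le
      apply sum_le_sum_of_subset_of_nonneg (filter_subset _ _)
      intro n _ _
      exact Pool.Agent.Y965.GP.ind_nonneg _ _
    · intro hE
      obtain ⟨δ, hδ⟩ := (unif d m r h hne hσ).1 _ (divergent_inv d m r)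
      have hδ0 : 0 ≤ δ := (DSs_range ((PiatetskiShapiroTerms.DSs_iff hσ _ δ).2 hδ)).1
      rcases hδ0.eq_or_lt with h0 | h0
      · rw [h0]; exact hδ
      · exfalso
        have hvu : 0 < v - u := by linarith
        obtain ⟨N0, h1⟩ := hcount k hk α hα hne σ hσ ((v - u) * δ / 4) (by positivity)
        obtain ⟨N, hN, P, hP, hPc, h2⟩ := hE ((v - u) * δ / 4) (by positivity) (N0 + 1)
        have h3 := (abs_le.1 (h1 N (by omega) P hP hPc u v hu huv.le hv _ (divergent_inv d m r) δ hδ)).1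
        have hNp : (0 : ℝ) < N := by exact_mod_cast (by omega : 0 < N)
        have h4 : 0 < (v - u) * δ * N := by positivity
        linarith

end Pool.Agent.Results.MP_39d40e_nt.PolynomialPhases
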