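import Pool.Agent.H319R2.LeighBridge
import Pool.Agent.Q179.CY.Win

set_option autoImplicit false

/-!
# Leigh's chain: the lengths of the cycles in classes whose multipliers are powers of one integer

`T`, `P`, `Data`, `Class`, `Lam`, `S` are the map, the transition probabilities, the admissible
data, the finite closed communicating classes with their stationary distribution, the number `Λ_C`
and the union `S_C`, as in the library file `Pool.Agent.H319R2.LeighBridge`; a state `(j, k)` is
the class of `j` modulo `d k`.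

Let `C` be a class such that `m_i = q ^ (w_i)`, `w_i ≥ 0`, for all residues `i` modulo `d` of the states of `C`, with one
`q ≥ 2` coprime to `d`. The multipliers outside of `C` are arbitrary. (1) If `Λ_C < 1`, the shapes of the cycles in
`S_C` satisfy `|p log d - s log q| ≤ A N ^ (-κ)`, uniformly in the length `p` (`s` is the sum of the `w_i` along the
cycle, which does not meet `(-N, N)`), and at most `A P exp (-c √(log P))` lengths of cycles in `S_C` are in any
window of length `P`. (2) Whatever `Λ_C` is (in particular for `Λ_C > 1`), the same bound for the number of lengths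
holds for all windows `(Q, Q + P]` with `P ≥ (log (Q + 1)) ^ (1 + δ)`.
-/

namespace Pool.Agent.Results.MP_39d40e_nt.RareCycleLengths

open Finset Filter Pool.Agent.H319R2.Leigh Pool.Agent.H319R2.M

/-- the lengths (exact periods) of the cycles in `S_C` -/
def lengths (d : ℕ) (m r : ℤ → ℤ) (C : Finset (ℤ × ℕ)) : Set ℕ :=
  {p : ℕ | 0 < p ∧ ∃ x ∈ S d C, Function.minimalPeriod (T d m r) x = p}

/-- the sum of the exponents `w_i` along the first `k` terms of the trajectory of `x` -/
def expo (d : ℕ) (m r : ℤ → ℤ) (w : ℤ → ℕ) (k : ℕ) (x : ℤ) : ℕ := ∑ j ∈ range k, w ((T d m r)^[j] x % d)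

section

variable {d : ℕ} {m r b : ℤ → ℤ} {e : ℤ → ℕ} {C : Finset (ℤ × ℕ)} {ρ : ℤ × ℕ → ℝ}

theorem inv (D : Data d m r b e) (hC : Class d m r e C ρ) : ∀ x ∈ S d C, T d m r x ∈ S d C :=
  fun x hx => GM.SC_inv (gm_fac D) (gm_cls D hC) x hx

theorem inv_iter (D : Data d m r b e) (hC : Class d m r e C ρ) (k : ℕ) : ∀ x ∈ S d C, (T d m r)^[k] x ∈ S d C := by
  induction k with
  | zero => intro x hx; exact hx
  | succ k ih => intro x hx; rw [Function.iterate_succ_apply']; exact inv D hC _ (ih x hx)

theorem mult {q : ℕ} {w : ℤ → ℕ} (hw : ∀ B ∈ C, m (B.1 % d) = (q : ℤ) ^ w (B.1 % d)) {x : ℤ} (hx : x ∈ S d C) :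
    m (x % d) = (q : ℤ) ^ w (x % d) := by
  obtain ⟨B, hB, hxB⟩ := hx
  have h1 : x % d = B.1 % d := by
    have h3 : x ≡ B.1 [ZMOD ((d * B.2 : ℕ) : ℤ)] := hxB
    rw [Nat.cast_mul] at h3
    exact Int.ModEq.of_mul_right _ h3
  rw [h1]
  exact hw B hB

end

theorem result (d : ℕ) (m r b : ℤ → ℤ) (e : ℤ → ℕ) (D : Data d m r b e) (C : Finset (ℤ × ℕ))
    (ρ : ℤ × ℕ → ℝ) (hC : Class d m r e C ρ) (q : ℕ) (hq : 2 ≤ q) (hqd : Nat.Coprime q d) (w : ℤ → ℕ)
    (hw : ∀ B ∈ C, m (B.1 % d) = (q : ℤ) ^ w (B.1 % d)) :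
    (Lam d m C ρ < 1 → ∃ κ c A : ℝ, 0 < κ ∧ 0 < c ∧
      (∀ x ∈ S d C, ∀ p : ℕ, 0 < p → Function.minimalPeriod (T d m r) x = p → ∀ N : ℝ,
        2 * ∑ i ∈ Finset.range d, |(r i : ℝ)| + 1 ≤ N → (∀ j : ℕ, N ≤ |(((T d m r)^[j] x : ℤ) : ℝ)|) →
        |(p : ℝ) * Real.log d - expo d m r w p x * Real.log q| ≤ A * N ^ (-κ)) ∧
      ∀ Q P : ℕ, 1 ≤ P → (Set.ncard {p : ℕ | p ∈ lengths d m r C ∧ Q < p ∧ p ≤ Q + P} : ℝ) ≤
        A * P * Real.exp (-(c * Real.sqrt (Real.log P)))) ∧
    (∀ δ : ℝ, 0 < δ → ∃ c A : ℝ, 0 < c ∧ ∀ Q P : ℕ, 1 ≤ P → Real.log (Q + 1) ^ (1 + δ) ≤ P →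
      (Set.ncard {p : ℕ | p ∈ lengths d m r C ∧ Q < p ∧ p ≤ Q + P} : ℝ) ≤
        A * P * Real.exp (-(c * Real.sqrt (Real.log P)))) := by
  classical
  have hd2 := D.two_le
  have hd0 : (0 : ℝ) < d := by exact_mod_cast (by omega : 0 < d)
  have hq0 : (0 : ℝ) < q := by exact_mod_cast (by omega : 0 < q)
  refine ⟨fun hL => ?_, fun δ hδ => ?_⟩
  · obtain ⟨hinv, η, hη0, hη1, hsm⟩ := small D hC hL
    obtain ⟨A2, hA2, h2⟩ := (gm D).cycle_rigid (S d C) hinv η hη0 hη1 hsm
    have hR : (gm D).R = ∑ i ∈ Finset.range d, |(r i : ℝ)| := rfl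
    have hlg : ∀ x ∈ S d C, ∀ p : ℕ, (gm D).lg p x = expo d m r w p x * Real.log q - p * Real.log d := by
      intro x hx p
      unfold GM.lg expo
      have h3 : ∀ j ∈ range p, Real.log ((gm D).a (((gm D).T^[j] x) % (gm D).d)) =
          (w ((T d m r)^[j] x % d) : ℝ) * Real.log q - Real.log d := by
        intro j _
        have h4 := mult hw (inv_iter D hC j x hx)
        have h5 : (gm D).a (((gm D).T^[j] x) % (gm D).d) = |((m ((T d m r)^[j] x % d) : ℤ) : ℝ)| / d := rfl
        rw [h5, h4]
        push_cast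
        rw [abs_of_pos (pow_pos hq0 _), Real.log_div (pow_pos hq0 _).ne' hd0.ne', Real.log_pow]
      rw [sum_congr rfl h3, sum_sub_distrib, ← sum_mul]
      push_cast
      simp
    set κ : ℝ := 1 - η with hκ
    have hκ0 : 0 < κ := by linarith
    have hshape : ∀ x ∈ S d C, ∀ p : ℕ, 0 < p → Function.minimalPeriod (T d m r) x = p → ∀ N : ℝ,
        2 * (gm D).R + 1 ≤ N → (∀ j : ℕ, N ≤ |(((T d m r)^[j] x : ℤ) : ℝ)|) →
        |(p : ℝ) * Real.log d - expo d m r w p x * Real.log q| ≤ A2 * N ^ (-κ) := by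
      intro x hx p hp hmp N hN hmin
      have h3 := h2 x hx p hmp.symm hp N hN hmin
      rw [hlg x hx, abs_sub_comm] at h3
      rw [show -κ = η - 1 by rw [hκ]; ring]
      exact h3
    obtain ⟨c, hc0, hcnt⟩ := Pool.Agent.H53.MC.count d q hd2 hq hqd (κ / 2) (by positivity)
    obtain ⟨C1, hC1, h1⟩ := hcnt A2 hA2
    set B : ℝ := Real.exp (c ^ 2 / (4 * (1 - 1 / 2))) with hB
    have hB0 : 0 < B := Real.exp_pos _
    set R := (gm D).R with hRd
    have hR0 : 0 ≤ R := (gm D).R_nonneg
    refine ⟨κ, c, A2 + (C1 + (4 * R + 9) * B), hκ0, hc0, ?_, ?_⟩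
    · intro x hx p hp hmp N hN hmin
      have hN0 : 0 < N := by rw [← hR] at hN; linarith
      refine (hshape x hx p hp hmp N (by rw [hR]; exact hN) hmin).trans ?_
      apply mul_le_mul_of_nonneg_right _ (Real.rpow_nonneg hN0.le _)
      have : 0 ≤ C1 + (4 * R + 9) * B := by positivity
      linarith
    · intro Q P hP
      have hPr : (1 : ℝ) ≤ P := by exact_mod_cast hP
      have hP0 : (0 : ℝ) < P := by linarith
      have hsq1 : 1 ≤ Real.sqrt P := Real.one_le_sqrt.2 hPr
      set N : ℝ := max (Real.sqrt P) (2 * R + 1) with hN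
      have hNs : Real.sqrt P ≤ N := le_max_left _ _
      have hNR : 2 * R + 1 ≤ N := le_max_right _ _
      have hN0 : 0 < N := by linarith
      have hNle : N ≤ (2 * R + 2) * Real.sqrt P := by
        apply max_le
        · nlinarith
        · nlinarith
      set M : ℕ := ⌈N⌉₊ with hM
      have hMN : N ≤ M := Nat.le_ceil _
      have hMN' : (M : ℝ) < N + 1 := Nat.ceil_lt_add_one hN0.le
      set small : Finset ℤ := Finset.Icc (-(M : ℤ)) M with hsmall
      have hsc : small.card = 2 * M + 1 := by rw [hsmall, Int.card_Icc]; omega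
      set F : Finset ℕ := (Finset.Ioc Q (Q + P)).filter (fun p => p ∈ lengths d m r C) with hF
      have hset : {p : ℕ | p ∈ lengths d m r C ∧ Q < p ∧ p ≤ Q + P} = (F : Set ℕ) := by
        ext p
        simp only [hF, coe_filter, Finset.mem_Ioc, Set.mem_ofPred_eq]
        tauto
      rw [hset, Set.ncard_coe_finset]
      set I := small.image (Function.minimalPeriod (T d m r)) with hI
      set F1 := F \ I with hF1
      have hb1 : (F1.card : ℝ) ≤ C1 * P * Real.exp (-(c * Real.sqrt (Real.log P))) := by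
        apply h1 Q P hP
        intro p hp
        rw [hF1, Finset.mem_sdiff, hF, Finset.mem_filter, Finset.mem_Ioc] at hp
        obtain ⟨⟨hp1, hp0, x, hx, hmp⟩, hp2⟩ := hp
        refine ⟨hp1, expo d m r w p x, ?_⟩
        have hper : x ∈ Function.periodicPts (T d m r) := by
          rw [← Function.minimalPeriod_pos_iff_mem_periodicPts, hmp]; exact hp0
        have hmin : ∀ j : ℕ, N ≤ |(((T d m r)^[j] x : ℤ) : ℝ)| := by
          intro j
          by_contra hcon
          apply hp2
          rw [hI, mem_image]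
          refine ⟨(T d m r)^[j] x, ?_, by rw [Function.minimalPeriod_apply_iterate hper j, hmp]⟩
          have h3 : |(((T d m r)^[j] x : ℤ) : ℝ)| < M := (not_le.1 hcon).trans_le hMN
          have h4 : |(T d m r)^[j] x| < (M : ℤ) := by exact_mod_cast h3
          rw [abs_lt] at h4
          rw [hsmall, Finset.mem_Icc]
          constructor <;> linarith
        have h3 := hshape x hx p hp0 hmp N hNR hmin
        rw [Int.cast_natCast]
        refine h3.trans (mul_le_mul_of_nonneg_left ?_ hA2.le)
        have h4 : N ^ (-κ) ≤ Real.sqrt P ^ (-κ) :=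
          Real.rpow_le_rpow_of_nonpos (by linarith) hNs (by linarith)
        refine h4.trans (le_of_eq ?_)
        rw [Real.sqrt_eq_rpow, ← Real.rpow_mul hP0.le]
        congr 1
        ring
      have hb2 : ((F ∩ I).card : ℝ) ≤ (4 * R + 9) * Real.sqrt P := by
        have h3 : (F ∩ I).card ≤ 2 * M + 1 := by
          refine (card_le_card inter_subset_right).trans ?_
          rw [← hsc]; exact card_image_le
        have h4 : ((F ∩ I).card : ℝ) ≤ 2 * M + 1 := by exact_mod_cast h3
        nlinarith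
      have h3 : (F.card : ℝ) = F1.card + (F ∩ I).card := by
        rw [hF1, ← Nat.cast_add, card_sdiff_add_card_inter]
      have h4 := Pool.Agent.Q179.CY.rpow_le (θ := 1 / 2) (by norm_num) c P hPr
      rw [← Real.sqrt_eq_rpow] at h4
      have h5 : (4 * R + 9) * Real.sqrt P ≤ (4 * R + 9) * (B * (P * Real.exp (-(c * Real.sqrt (Real.log P))))) :=
        mul_le_mul_of_nonneg_left h4 (by positivity)
      have h6 : 0 ≤ A2 * (P * Real.exp (-(c * Real.sqrt (Real.log P)))) := by positivity
      rw [h3]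
      have e1 : (A2 + (C1 + (4 * R + 9) * B)) * P * Real.exp (-(c * Real.sqrt (Real.log P))) =
          A2 * (P * Real.exp (-(c * Real.sqrt (Real.log P)))) + C1 * P * Real.exp (-(c * Real.sqrt (Real.log P)))
          + (4 * R + 9) * (B * (P * Real.exp (-(c * Real.sqrt (Real.log P))))) := by ring
      rw [e1]
      linarith
  · -- a map of the form of the library which agrees with `T` on `S_C`
    set R : ℝ := (gm D).R with hR
    set T' : ℤ → ℤ := fun x => if x ∈ S d C then T d m r x else x / d with hT'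
    set e' : ℤ → ℕ := fun x => if x ∈ S d C then w (x % d) else 0 with he'
    have hR0 : 0 ≤ R := (gm D).R_nonneg
    have M : Pool.Agent.H446R2.CS.Model T' d q e' (R + d) := by
      refine ⟨by omega, hq, fun x => ?_⟩
      by_cases hx : x ∈ S d C
      · have e1 : T' x = T d m r x := by rw [hT']; simp only [if_pos hx]
        have e2 : e' x = w (x % d) := by rw [he']; simp only [if_pos hx]
        have h3 := (gm D).T_mul x
        have h4 : (d : ℤ) * T d m r x = m (x % d) * x - r (x % d) := h3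
        rw [e1, e2, h4, ← mult hw hx, ← Int.cast_sub]
        have e3 : m (x % d) * x - r (x % d) - m (x % d) * x = - r (x % d) := by ring
        rw [e3, Int.cast_neg, abs_neg]
        have h5 : |((r (x % d) : ℤ) : ℝ)| ≤ R := (gm D).r_le x
        linarith
      · have e1 : T' x = x / d := by rw [hT']; simp only [if_neg hx]
        have e2 : e' x = 0 := by rw [he']; simp only [if_neg hx]
        rw [e1, e2, pow_zero, one_mul, ← Int.cast_sub]
        have h3 : (d : ℤ) * (x / d) - x = - (x % d) := by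
          have := Int.mul_ediv_add_emod x d
          linarith
        have h4 : 0 ≤ x % (d : ℤ) := Int.emod_nonneg _ (by omega)
        have h5 : x % (d : ℤ) < d := Int.emod_lt_of_pos _ (by omega)
        rw [h3, Int.cast_neg, abs_neg, abs_of_nonneg (by exact_mod_cast h4)]
        have h6 : ((x % (d : ℤ) : ℤ) : ℝ) ≤ d := by exact_mod_cast h5.le
        linarith
    obtain ⟨c, hc, h⟩ := Pool.Agent.Q179.CY.windows (d := d) (β := q) hd2 hq hqd hδ
    obtain ⟨A, _, hA⟩ := h T' e' _ M
    refine ⟨c, A, hc, fun Q P hP hQ => ?_⟩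
    refine le_trans ?_ (hA Q P hP hQ)
    have hfin : (Pool.Agent.Q179.CY.lens T' Q P).Finite := (Set.finite_Iic (Q + P)).subset (fun p hp => hp.1.2)
    have hsub : {p : ℕ | p ∈ lengths d m r C ∧ Q < p ∧ p ≤ Q + P} ⊆ Pool.Agent.Q179.CY.lens T' Q P := by
      rintro p ⟨⟨hp0, x, hx, hmp⟩, hp1⟩
      have hit : ∀ j : ℕ, T'^[j] x = (T d m r)^[j] x := by
        intro j
        induction j with
        | zero => rfl
        | succ j ih =>
          rw [Function.iterate_succ_apply', Function.iterate_succ_apply', ih, hT']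
          simp only [if_pos (inv_iter D hC j x hx)]
      refine ⟨hp1, (range p).image (fun j => T'^[j] x), ⟨x, p, hp0, ?_, rfl⟩, ?_⟩
      · rw [hit, ← hmp]; exact Function.iterate_minimalPeriod
      · rw [card_image_of_injOn, card_range]
        intro i hi j hj hij
        simp only [hit] at hij
        rw [coe_range, Set.mem_Iio] at hi hj
        exact Function.iterate_injOn_Iio_minimalPeriod (by rw [Set.mem_Iio, hmp]; exact hi)
          (by rw [Set.mem_Iio, hmp]; exact hj) hij
    exact_mod_cast Set.ncard_le_ncard hsub hfin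

end Pool.Agent.Results.MP_39d40e_nt.RareCycleLengths
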